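import Pool.Agent.Helper85.QT.St3

/-!
Project QT (MP_d112a4_gt), module LIB: harmonic measure of the annulus, lower bound.
-/

set_option autoImplicit false

open MeasureTheory Matrix Set Topology
open scoped ENNReal ComplexConjugate

namespace Pool.Agent.Helper60.QT

open Pool.Agent.Helper85.QT Pool.Agent.Helper86.QA

theorem hLIB (hHME : Pool.Agent.Helper86.QA.StHME) (hFDC : Pool.Agent.Helper85.QT.StFDC)
    (hTTX : Pool.Agent.Helper85.QT.StTTX) (hVIS : Pool.Agent.Helper85.QT.StVIS)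
    (hNEA : Pool.Agent.Helper85.QT.StNEA) (hANB : Pool.Agent.Helper85.QT.StANB)
    (hBAN : Pool.Agent.Helper85.QT.StBAN) : Pool.Agent.Helper85.QT.StLIB := by
  intro C3 c0 hC3 hc0
  obtain ⟨C₁, c₁, hC₁, hc₁, hB⟩ := hBAN C3 hC3
  set C₂ := C₁ + 12 * c0 with hC₂
  have hC₂0 : 0 < C₂ := by rw [hC₂]; linarith
  set κ := 1 / (2 * (4 * c0 ^ 2 + C₂ ^ 2)) with hκ
  have hκ0 : 0 < κ := by rw [hκ]; positivity
  have hpi := Real.pi_pos
  have hpi4 := Real.pi_le_four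
  refine ⟨8 * C₂, κ ^ 2 * c₁ / Real.pi, by rw [hC₂]; linarith, by positivity, ?_⟩
  intro Γ _ ρ A B α lam M G m φ bb hAnn hBnd hCm x hx hsb hT
  obtain ⟨hlam, -, -, -, -, -, -, hlm, -, -, -, -, -, -, hEE⟩ :=
    hANB Γ ρ A B α lam M G m φ C3 hAnn
  have hbb : 1 ≤ bb := hBnd.1
  have hl0 : 0 < ‖lam‖ := norm_pos_iff.2 hlam
  have hm0 : 0 ≤ m := by nlinarith
  obtain ⟨hE, hEo⟩ := hEE 0 m le_rfl le_rfl
  have hEm : MeasurableSet (EE lam G φ 0 m) := hEo.measurableSet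
  have hlC : ‖lam‖ * (C₂ * bb) ≤ 1 := by
    have h1 : ‖lam‖ * (8 * C₂ * bb) ≤ ‖lam‖ * m := mul_le_mul_of_nonneg_left hCm hl0.le
    nlinarith
  have hC₂bb : C₂ ≤ C₂ * bb := le_mul_of_one_le_right hC₂0.le hbb
  have hlc0 : ‖lam‖ * (12 * c0) ≤ 1 := by
    have h1 : ‖lam‖ * (12 * c0) ≤ ‖lam‖ * (C₂ * bb) := by
      apply mul_le_mul_of_nonneg_left _ hl0.le
      have : 12 * c0 ≤ C₂ := by rw [hC₂]; linarith
      linarith
    linarith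
  set T := TT lam x with hTdef
  obtain ⟨t1, -, t3, -⟩ := hTTX lam hlam
  obtain ⟨hT0, -, hTx⟩ := t1 x hx
  have h6 : 2 * (2 * 0 + 3) * ‖lam‖ * T ≤ 1 := by
    have h1 : ‖lam‖ * T ≤ ‖lam‖ * (2 * c0) := mul_le_mul_of_nonneg_left hT hl0.le
    nlinarith
  have hx1 : x.1 ≠ 0 := by
    apply hTx.1
    rw [mul_comm]
    nlinarith
  obtain ⟨hrd, -⟩ := t3 x hx hx1
  obtain ⟨ξ₀, hξ₀, hξ₀0, hfd⟩ := (hNEA Γ ρ A B hAnn.kd lam hlam).1 0 le_rfl x hx hsb h6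
  have hC₁m : C₁ * bb ≤ m := by
    have h1 : C₁ ≤ 8 * C₂ := by rw [hC₂]; linarith
    have h2 : C₁ * bb ≤ 8 * C₂ * bb := mul_le_mul_of_nonneg_right h1 (by linarith)
    linarith
  obtain ⟨V, hVm, hVE, hVd, hVa⟩ := hB Γ ρ A B α lam M G m φ bb hAnn hBnd hC₁m ξ₀ hξ₀ hξ₀0
  obtain ⟨f1, f2, -⟩ := hFDC lam hlam
  -- flat distance from the projection to the points of `V`
  have hd : ∀ η ∈ V, fd lam (rd x) η ≤ C₂ * bb := by
    intro η hη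
    obtain ⟨h1, h2⟩ := hVd η hη
    have h3 := f2 (rd x) ξ₀ η hrd hξ₀0 h1
    have h4 : fd lam (rd x) ξ₀ ≤ 12 * c0 * bb := by
      have : 12 * c0 ≤ 12 * c0 * bb := le_mul_of_one_le_right (by linarith) hbb
      have h5 : 2 * (2 * 0 + 3) * T ≤ 12 * c0 := by linarith
      linarith
    rw [hC₂]
    linarith
  -- pointwise lower bound
  have hpt : ∀ η ∈ V, (κ * T / bb ^ 2) ^ 2 * (1 / (‖lam‖ ^ 2 * ‖η‖ ^ 2)) ≤ pp x η ^ 2 := by
    intro η hη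
    obtain ⟨hη0, -⟩ := hVd η hη
    have hd0 : 0 ≤ fd lam (rd x) η := (f1 (rd x) η).2.1
    have hdη := hd η hη
    have hcond : ‖lam‖ * fd lam (rd x) η ≤ 1 := by
      have := mul_le_mul_of_nonneg_left hdη hl0.le
      linarith
    have hv := (hVIS lam hlam x hx hx1 η hη0).2 hcond
    have hn : 0 < ‖η‖ := norm_pos_iff.2 hη0
    have hden : 2 * (T ^ 2 + fd lam (rd x) η ^ 2) ≤ 2 * (4 * c0 ^ 2 + C₂ ^ 2) * bb ^ 2 := by
      have h1 : T ^ 2 ≤ (2 * c0) ^ 2 := pow_le_pow_left₀ hT0.le hT 2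
      have h2 : fd lam (rd x) η ^ 2 ≤ (C₂ * bb) ^ 2 := pow_le_pow_left₀ hd0 hdη 2
      have h3 : 1 ≤ bb ^ 2 := one_le_pow₀ hbb
      have h4 : 4 * c0 ^ 2 ≤ 4 * c0 ^ 2 * bb ^ 2 := le_mul_of_one_le_right (by positivity) h3
      nlinarith
    have h5 : κ * T / bb ^ 2 ≤ T / (2 * (T ^ 2 + fd lam (rd x) η ^ 2)) := by
      have h6 : κ * T / bb ^ 2 = T / (2 * (4 * c0 ^ 2 + C₂ ^ 2) * bb ^ 2) := by
        rw [hκ]
        field_simp
      rw [h6]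
      exact div_le_div_of_nonneg_left hT0.le (by positivity) hden
    have h7 : κ * T / bb ^ 2 ≤ ‖lam‖ * ‖η‖ * pp x η := le_trans h5 hv
    have h8 : (κ * T / bb ^ 2) ^ 2 ≤ (‖lam‖ * ‖η‖ * pp x η) ^ 2 :=
      pow_le_pow_left₀ (by positivity) h7 2
    have h9 : 0 < ‖lam‖ ^ 2 * ‖η‖ ^ 2 := by positivity
    rw [mul_one_div, div_le_iff₀ h9]
    calc (κ * T / bb ^ 2) ^ 2 ≤ (‖lam‖ * ‖η‖ * pp x η) ^ 2 := h8
      _ = pp x η ^ 2 * (‖lam‖ ^ 2 * ‖η‖ ^ 2) := by ring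
  -- integration
  have hIE := ((hHME.1) (EE lam G φ 0 m) x hEm hx).1
  have hIV : IntegrableOn (fun ξ => pp x ξ ^ 2) V := hIE.mono_set hVE
  have hlow : ENNReal.ofReal ((κ * T / bb ^ 2) ^ 2 * (c₁ * bb ^ 2))
      ≤ ENNReal.ofReal (∫ ξ in V, pp x ξ ^ 2) := by
    rw [ofReal_integral_eq_lintegral_ofReal hIV
      (Filter.Eventually.of_forall fun ξ => sq_nonneg (pp x ξ)),
      ENNReal.ofReal_mul (by positivity)]
    calc ENNReal.ofReal ((κ * T / bb ^ 2) ^ 2) * ENNReal.ofReal (c₁ * bb ^ 2)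
        ≤ ENNReal.ofReal ((κ * T / bb ^ 2) ^ 2)
          * ∫⁻ η in V, ENNReal.ofReal (1 / (‖lam‖ ^ 2 * ‖η‖ ^ 2)) := by gcongr
      _ = ∫⁻ η in V, ENNReal.ofReal ((κ * T / bb ^ 2) ^ 2)
          * ENNReal.ofReal (1 / (‖lam‖ ^ 2 * ‖η‖ ^ 2)) :=
        (lintegral_const_mul' _ _ ENNReal.ofReal_ne_top).symm
      _ ≤ ∫⁻ η in V, ENNReal.ofReal (pp x η ^ 2) := by
        apply setLIntegral_mono' hVm
        intro η hη
        rw [← ENNReal.ofReal_mul (by positivity)]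
        exact ENNReal.ofReal_le_ofReal (hpt η hη)
  have hVpos : 0 ≤ ∫ ξ in V, pp x ξ ^ 2 := integral_nonneg fun ξ => sq_nonneg (pp x ξ)
  have hlow2 : (κ * T / bb ^ 2) ^ 2 * (c₁ * bb ^ 2) ≤ ∫ ξ in V, pp x ξ ^ 2 :=
    (ENNReal.ofReal_le_ofReal_iff hVpos).1 hlow
  have hmono : ∫ ξ in V, pp x ξ ^ 2 ≤ ∫ ξ in EE lam G φ 0 m, pp x ξ ^ 2 :=
    setIntegral_mono_set hIE (Filter.Eventually.of_forall fun ξ => sq_nonneg (pp x ξ))
      (Filter.Eventually.of_forall hVE)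
  unfold hv
  have hfin : κ ^ 2 * c₁ / Real.pi * T ^ 2 / bb ^ 2
      = 1 / Real.pi * ((κ * T / bb ^ 2) ^ 2 * (c₁ * bb ^ 2)) := by
    have hb0 : bb ≠ 0 := by linarith
    field_simp
  rw [hfin]
  exact mul_le_mul_of_nonneg_left (le_trans hlow2 hmono) (by positivity)

end Pool.Agent.Helper60.QT
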