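import Pool.Agent.Helper85.QT.St1

/-! # Project QT, module SH2 (spherical geometry) -/

set_option autoImplicit false

open MeasureTheory Matrix Set Topology
open scoped ENNReal ComplexConjugate

namespace Pool.Agent.Helper60.QT

open Pool.Agent.Helper85.QT Pool.Agent.Helper86.QA

private theorem nsq' (z : ℂ) : ‖z‖ ^ 2 = z.re ^ 2 + z.im ^ 2 := by
  rw [← Complex.normSq_eq_norm_sq, Complex.normSq_apply]
  ring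

private theorem cs_ineq (a b : ℂ) :
    ‖1 + conj a * b‖ ≤ Real.sqrt (1 + ‖a‖ ^ 2) * Real.sqrt (1 + ‖b‖ ^ 2) := by
  rw [← Real.sqrt_mul (by positivity)]
  refine Real.le_sqrt_of_sq_le ?_
  have h1 : ‖1 + conj a * b‖ ≤ 1 + ‖a‖ * ‖b‖ := by
    refine (norm_add_le _ _).trans (le_of_eq ?_)
    rw [norm_one, norm_mul, RCLike.norm_conj]
  have h2 : ‖1 + conj a * b‖ ^ 2 ≤ (1 + ‖a‖ * ‖b‖) ^ 2 := pow_le_pow_left₀ (norm_nonneg _) h1 2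
  nlinarith [sq_nonneg (‖a‖ - ‖b‖)]

private theorem tri (m k ξ : ℂ) : ‖m - k‖ * Real.sqrt (1 + ‖ξ‖ ^ 2) ≤
    ‖m - ξ‖ * Real.sqrt (1 + ‖k‖ ^ 2) + ‖ξ - k‖ * Real.sqrt (1 + ‖m‖ ^ 2) := by
  have hpos : 0 < Real.sqrt (1 + ‖ξ‖ ^ 2) := Real.sqrt_pos.2 (by positivity)
  have hsq : Real.sqrt (1 + ‖ξ‖ ^ 2) ^ 2 = 1 + ‖ξ‖ ^ 2 := Real.sq_sqrt (by positivity)
  have hz : conj ξ * ξ = ((‖ξ‖ ^ 2 : ℝ) : ℂ) := by
    rw [mul_comm, Complex.mul_conj, Complex.normSq_eq_norm_sq]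
  have hid : (m - k) * ((1 + ‖ξ‖ ^ 2 : ℝ) : ℂ)
      = (m - ξ) * (1 + conj ξ * k) + (ξ - k) * (1 + conj ξ * m) := by
    have h1 : ((1 + ‖ξ‖ ^ 2 : ℝ) : ℂ) = 1 + conj ξ * ξ := by
      rw [hz]
      push_cast
      ring
    rw [h1]
    ring
  have h2 := congrArg norm hid
  rw [norm_mul, Complex.norm_real, Real.norm_eq_abs, abs_of_pos (by positivity), ← hsq] at h2
  have h3 : ‖(m - ξ) * (1 + conj ξ * k) + (ξ - k) * (1 + conj ξ * m)‖ ≤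
      ‖m - ξ‖ * (Real.sqrt (1 + ‖ξ‖ ^ 2) * Real.sqrt (1 + ‖k‖ ^ 2)) +
      ‖ξ - k‖ * (Real.sqrt (1 + ‖ξ‖ ^ 2) * Real.sqrt (1 + ‖m‖ ^ 2)) := by
    refine (norm_add_le _ _).trans ?_
    rw [norm_mul, norm_mul]
    gcongr
    · exact cs_ineq _ _
    · exact cs_ineq _ _
  rw [← h2] at h3
  have h4 : (‖m - k‖ * Real.sqrt (1 + ‖ξ‖ ^ 2)) * Real.sqrt (1 + ‖ξ‖ ^ 2) ≤
      (‖m - ξ‖ * Real.sqrt (1 + ‖k‖ ^ 2) + ‖ξ - k‖ * Real.sqrt (1 + ‖m‖ ^ 2)) *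
        Real.sqrt (1 + ‖ξ‖ ^ 2) := by
    nlinarith
  exact le_of_mul_le_mul_right h4 hpos

private theorem core (C : ℂ) (R : ℝ) (hR0 : 0 < R) (hR : ‖C‖ ^ 2 + 1 < R ^ 2) :
    ∃ m : ℂ, ‖m‖ ≤ 1 ∧ ∀ ξ : ℂ, ‖ξ - m‖ < 1 / 5 → (1 + ‖ξ‖ ^ 2 ≤ 4) ∧
      ∀ k : ℂ, R ≤ ‖k - C‖ → (1 + ‖ξ‖ ^ 2) * (1 + ‖k‖ ^ 2) ≤ 4 * ‖ξ - k‖ ^ 2 := by
  set w := Real.sqrt (1 + ‖C‖ ^ 2) with hw
  have hw2 : w ^ 2 = 1 + ‖C‖ ^ 2 := Real.sq_sqrt (by positivity)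
  have hw1 : 1 ≤ w := by
    rw [hw]
    exact Real.one_le_sqrt.2 (by nlinarith [sq_nonneg ‖C‖])
  have hw0 : 0 < 1 + w := by linarith
  set m : ℂ := ((1 / (1 + w) : ℝ) : ℂ) * C with hm
  have hnm : ‖m‖ = ‖C‖ / (1 + w) := by
    rw [hm, norm_mul, Complex.norm_real, Real.norm_eq_abs, abs_of_pos (by positivity)]
    ring
  have hCw : ‖C‖ ≤ w := by
    refine abs_le_of_sq_le_sq' ?_ (by linarith) |>.2
    linarith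
  have hm1 : ‖m‖ ≤ 1 := by
    rw [hnm, div_le_one hw0]
    linarith
  have hm2 : ‖m‖ ^ 2 = (w - 1) / (1 + w) := by
    rw [hnm, div_pow, div_eq_div_iff (by positivity) hw0.ne']
    have : ‖C‖ ^ 2 = (w - 1) * (1 + w) := by nlinarith
    rw [this]
    ring
  refine ⟨m, hm1, ?_⟩
  intro ξ hξ
  have hξn : ‖ξ‖ ≤ 6 / 5 := by
    have h1 : ‖ξ‖ ≤ ‖ξ - m‖ + ‖m‖ := by
      have := norm_add_le (ξ - m) m
      rwa [sub_add_cancel] at this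
    linarith
  refine ⟨by nlinarith [norm_nonneg ξ], ?_⟩
  intro k hk
  have hk2 : R ^ 2 ≤ ‖k - C‖ ^ 2 := pow_le_pow_left₀ hR0.le hk 2
  -- inner product
  have hkC : ‖k - C‖ ^ 2 = ‖k‖ ^ 2 - 2 * (k.re * C.re + k.im * C.im) + ‖C‖ ^ 2 := by
    rw [nsq', nsq', nsq', Complex.sub_re, Complex.sub_im]
    ring
  have hmre : m.re = C.re / (1 + w) := by
    rw [hm, Complex.re_ofReal_mul]
    ring
  have hmim : m.im = C.im / (1 + w) := by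
    rw [hm, Complex.im_ofReal_mul]
    ring
  have hmk : ‖m - k‖ ^ 2 = ‖m‖ ^ 2 + ‖k‖ ^ 2 - 2 * ((k.re * C.re + k.im * C.im) / (1 + w)) := by
    rw [nsq' (m - k), nsq' m, nsq' k, Complex.sub_re, Complex.sub_im, hmre, hmim]
    ring
  have h1 : (1 + ‖m‖ ^ 2) * (1 + ‖k‖ ^ 2) < 2 * ‖m - k‖ ^ 2 := by
    have e1 : 2 * ‖m - k‖ ^ 2 - (1 + ‖m‖ ^ 2) * (1 + ‖k‖ ^ 2)
        = (2 / (1 + w)) * (‖k‖ ^ 2 - 1 - 2 * (k.re * C.re + k.im * C.im)) := by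
      rw [hmk, hm2]
      field_simp
      ring
    have e2 : 0 < (2 / (1 + w)) * (‖k‖ ^ 2 - 1 - 2 * (k.re * C.re + k.im * C.im)) := by
      apply mul_pos (by positivity)
      linarith
    linarith
  set Nm := Real.sqrt (1 + ‖m‖ ^ 2) with hNm
  set Nk := Real.sqrt (1 + ‖k‖ ^ 2) with hNk
  set Nx := Real.sqrt (1 + ‖ξ‖ ^ 2) with hNx
  have m2 : Nm ^ 2 = 1 + ‖m‖ ^ 2 := Real.sq_sqrt (by positivity)
  have k2 : Nk ^ 2 = 1 + ‖k‖ ^ 2 := Real.sq_sqrt (by positivity)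
  have x2 : Nx ^ 2 = 1 + ‖ξ‖ ^ 2 := Real.sq_sqrt (by positivity)
  have m1 : 1 ≤ Nm := Real.one_le_sqrt.2 (by nlinarith [sq_nonneg ‖m‖])
  have k1 : 1 ≤ Nk := Real.one_le_sqrt.2 (by nlinarith [sq_nonneg ‖k‖])
  have x1 : 1 ≤ Nx := Real.one_le_sqrt.2 (by nlinarith [sq_nonneg ‖ξ‖])
  have ht := tri m k ξ
  rw [← hNm, ← hNk, ← hNx] at ht
  have hq : 7 / 10 * (Nm * Nk) ≤ ‖m - k‖ := by
    refine abs_le_of_sq_le_sq' ?_ (norm_nonneg _) |>.2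
    have e3 : (Nm * Nk) ^ 2 < 2 * ‖m - k‖ ^ 2 := by
      rw [mul_pow, m2, k2]
      exact h1
    nlinarith [sq_nonneg (‖m - k‖)]
  have hmx : ‖m - ξ‖ ≤ 1 / 5 := by
    rw [norm_sub_rev]
    exact hξ.le
  have h5 : 7 / 10 * (Nm * Nk) * Nx ≤ ‖m - k‖ * Nx := mul_le_mul_of_nonneg_right hq (by linarith)
  have h6 : ‖m - ξ‖ * Nk ≤ 1 / 5 * Nk := mul_le_mul_of_nonneg_right hmx (by linarith)
  have h7 : 1 ≤ Nm * Nx := by nlinarith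
  have h8 : 1 / 5 * Nk ≤ 1 / 5 * Nk * (Nm * Nx) := by
    nlinarith [mul_le_mul_of_nonneg_left h7 (by linarith : (0 : ℝ) ≤ 1 / 5 * Nk)]
  have h9 : (1 / 2 * (Nk * Nx)) * Nm ≤ ‖ξ - k‖ * Nm := by nlinarith
  have h10 : 1 / 2 * (Nk * Nx) ≤ ‖ξ - k‖ := le_of_mul_le_mul_right h9 (by linarith)
  have h11 : (1 / 2 * (Nk * Nx)) ^ 2 ≤ ‖ξ - k‖ ^ 2 :=
    pow_le_pow_left₀ (by positivity) h10 2
  rw [← x2, ← k2]
  nlinarith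

theorem hSH2 : Pool.Agent.Helper85.QT.StSH2 := by
  intro x hx c r hr h
  have ht : 0 < x.2 := hx
  have htc : (x.2 : ℂ) ≠ 0 := by exact_mod_cast ht.ne'
  have hnt : ‖(x.2 : ℂ)‖ = x.2 := by
    rw [Complex.norm_real, Real.norm_eq_abs, abs_of_pos ht]
  have hscale : ∀ a b : ℂ, ‖(a - x.1) / (x.2 : ℂ) - (b - x.1) / (x.2 : ℂ)‖ = ‖a - b‖ / x.2 := by
    intro a b
    rw [← sub_div, sub_sub_sub_cancel_right, norm_div, hnt]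
  obtain ⟨m, hm1, hm⟩ := core ((c - x.1) / (x.2 : ℂ)) (r / x.2) (by positivity) (by
    rw [norm_div, hnt, div_pow, div_pow, div_add_one (by positivity), norm_sub_rev c]
    exact div_lt_div_of_pos_right h (by positivity))
  have hpp : ∀ ξ : ℂ, pp x ξ = 1 / (x.2 * (1 + ‖(ξ - x.1) / (x.2 : ℂ)‖ ^ 2)) := by
    intro ξ
    unfold pp
    rw [norm_div, hnt, norm_sub_rev ξ]
    field_simp
    ring
  have hmm : ∀ ξ : ℂ, ξ ∈ Metric.ball (x.1 + (x.2 : ℂ) * m) (x.2 / 5) →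
      ‖(ξ - x.1) / (x.2 : ℂ) - m‖ < 1 / 5 := by
    intro ξ hξ
    rw [mem_ball_iff_norm] at hξ
    have h1 : (ξ - x.1) / (x.2 : ℂ) - m = (ξ - (x.1 + (x.2 : ℂ) * m)) / (x.2 : ℂ) := by
      field_simp
      ring
    rw [h1, norm_div, hnt, div_lt_iff₀ ht]
    linarith
  have hout : ∀ k : ℂ, k ∉ Metric.ball c r →
      r / x.2 ≤ ‖(k - x.1) / (x.2 : ℂ) - (c - x.1) / (x.2 : ℂ)‖ := by
    intro k hk
    rw [hscale]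
    rw [mem_ball_iff_norm, not_lt] at hk
    exact div_le_div_of_nonneg_right hk ht.le
  refine ⟨x.1 + (x.2 : ℂ) * m, ?_, ?_, ?_⟩
  · rw [add_sub_cancel_left, norm_mul, hnt]
    nlinarith
  · intro ξ hξ
    by_contra hcon
    have h1 := (hm _ (hmm ξ hξ)).2 _ (hout ξ hcon)
    rw [sub_self, norm_zero] at h1
    have h2 : 0 < (1 + ‖(ξ - x.1) / (x.2 : ℂ)‖ ^ 2) * (1 + ‖(ξ - x.1) / (x.2 : ℂ)‖ ^ 2) := by
      positivity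
    linarith
  · intro ξ hξ
    obtain ⟨h1, h2⟩ := hm _ (hmm ξ hξ)
    refine ⟨?_, ?_⟩
    · rw [hpp]
      have h3 : 4 * x.2 * (1 / (x.2 * (1 + ‖(ξ - x.1) / (x.2 : ℂ)‖ ^ 2)))
          = 4 / (1 + ‖(ξ - x.1) / (x.2 : ℂ)‖ ^ 2) := by
        field_simp
      rw [h3, le_div_iff₀ (by positivity), one_mul]
      exact h1
    · intro k hk
      have h3 := h2 _ (hout k hk)
      rw [hscale, div_pow] at h3
      rw [hpp, hpp]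
      have h4 : 4 * ‖ξ - k‖ ^ 2 * (1 / (x.2 * (1 + ‖(ξ - x.1) / (x.2 : ℂ)‖ ^ 2))) *
          (1 / (x.2 * (1 + ‖(k - x.1) / (x.2 : ℂ)‖ ^ 2)))
          = (4 * (‖ξ - k‖ ^ 2 / x.2 ^ 2)) / ((1 + ‖(ξ - x.1) / (x.2 : ℂ)‖ ^ 2) *
            (1 + ‖(k - x.1) / (x.2 : ℂ)‖ ^ 2)) := by
        field_simp
      rw [h4, le_div_iff₀ (by positivity), one_mul]
      exact h3

end Pool.Agent.Helper60.QT
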