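import Pool.Agent.Helper88.QT.St4

/-!
Project QT (MP_d112a4_gt), module OSD: oscillation of the inverse entropy.
-/

set_option autoImplicit false

open MeasureTheory Matrix Set Topology Filter
open scoped ENNReal ComplexConjugate

namespace Pool.Agent.Helper60.QT

open Pool.Agent.Helper88.QT
open Pool.Agent.Helper35.PM

namespace OSD

theorem exp_fifth : Real.exp (1 / 5) ≤ 5 / 4 := by
  by_contra h
  have h1 : 5 / 4 < Real.exp (1 / 5) := not_le.1 h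
  have h2 : (5 / 4 : ℝ) ^ 5 < Real.exp (1 / 5) ^ 5 :=
    pow_lt_pow_left₀ h1 (by norm_num) (by norm_num)
  have h3 : Real.exp (1 / 5) ^ 5 = Real.exp 1 := by
    rw [← Real.exp_nat_mul]
    norm_num
  rw [h3] at h2
  have h4 := Real.exp_one_lt_d9
  norm_num at h2
  linarith

theorem exp_half : Real.exp (1 / 2) ≤ 2 := by
  by_contra h
  have h1 : 2 < Real.exp (1 / 2) := not_le.1 h
  have h2 : (2 : ℝ) ^ 2 < Real.exp (1 / 2) ^ 2 :=
    pow_lt_pow_left₀ h1 (by norm_num) (by norm_num)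
  have h3 : Real.exp (1 / 2) ^ 2 = Real.exp 1 := by
    rw [← Real.exp_nat_mul]
    norm_num
  rw [h3] at h2
  have h4 := Real.exp_one_lt_d9
  norm_num at h2
  linarith

theorem eps_le {x : ℝ} (hx : 1 ≤ x) :
    (Real.exp (-2) * x) ^ (-(1 / 10) : ℝ) ≤ 5 / 4 * x ^ (-(1 / 10) : ℝ) := by
  rw [Real.mul_rpow (Real.exp_pos _).le (by linarith), ← Real.exp_mul]
  have h1 : (-2 : ℝ) * (-(1 / 10)) = 1 / 5 := by norm_num
  rw [h1]
  exact mul_le_mul_of_nonneg_right exp_fifth (Real.rpow_nonneg (by linarith) _)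

theorem th_le {x : ℝ} (hx : 1 ≤ x) :
    (Real.exp (-2) * x) ^ (-(1 / 4) : ℝ) ≤ 2 * x ^ (-(1 / 10) : ℝ) := by
  rw [Real.mul_rpow (Real.exp_pos _).le (by linarith), ← Real.exp_mul]
  have h1 : (-2 : ℝ) * (-(1 / 4)) = 1 / 2 := by norm_num
  rw [h1]
  have h2 : x ^ (-(1 / 4) : ℝ) ≤ x ^ (-(1 / 10) : ℝ) :=
    Real.rpow_le_rpow_of_exponent_le hx (by norm_num)
  exact mul_le_mul exp_half h2 (Real.rpow_nonneg (by linarith) _) (by norm_num)

/-- `C y^(-1/4) ≤ 1` if `y ≥ C^4` -/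
theorem th_one {C y : ℝ} (hC : 0 ≤ C) (hy : 1 ≤ y) (h : C ^ 4 ≤ y) :
    C * y ^ (-(1 / 4) : ℝ) ≤ 1 := by
  have hy0 : 0 < y := by linarith
  have h1 : C ≤ y ^ (1 / 4 : ℝ) := by
    have h2 : (C ^ 4) ^ (1 / 4 : ℝ) ≤ y ^ (1 / 4 : ℝ) :=
      Real.rpow_le_rpow (by positivity) h (by norm_num)
    have h3 : (C ^ 4) ^ (1 / 4 : ℝ) = C := by
      rw [← Real.rpow_natCast, ← Real.rpow_mul hC]
      norm_num
    rwa [h3] at h2
  rw [Real.rpow_neg hy0.le]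
  have h4 : 0 < y ^ (1 / 4 : ℝ) := Real.rpow_pos_of_pos hy0 _
  rw [← div_eq_mul_inv, div_le_one h4]
  exact h1

end OSD

open OSD in
theorem hOSD (hQF : Pool.Agent.Helper35.PM.St_QF) (hPO : Pool.Agent.Helper35.PM.St_PO)
    (hTTH : Pool.Agent.Helper88.QT.StTTH) (hAVG : Pool.Agent.Helper88.QT.StAVG)
    (hOSC : Pool.Agent.Helper88.QT.StOSC) (hTPR : Pool.Agent.Helper88.QT.StTPR) :
    Pool.Agent.Helper88.QT.StOSD := by
  intro g hg C3 a0 hC3 ha0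
  obtain ⟨ms₀, C, hms₀, hC, hT⟩ := hTTH C3 a0 hC3 ha0
  obtain ⟨p1, p2, p3, -, p5, -⟩ := hTPR
  refine ⟨max ms₀ (C ^ 4), 35 + 4 * C, le_trans hms₀ (le_max_left _ _), by positivity, ?_⟩
  intro U hU ρ α m hD t ht hmt ζ hζ
  set ms := max ms₀ (C ^ 4) with hms
  have hms1 : 1 ≤ ms := le_trans hms₀ (le_max_left _ _)
  have hmsC : C ^ 4 ≤ ms := le_max_right _ _
  have hms2 : ms₀ ≤ ms := le_max_left _ _
  obtain ⟨ht0, ht3⟩ := p3 t ht
  set mt := m * ((1 - t) / (1 + t)).re with hmtdef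
  have he2 : 1 ≤ Real.exp 2 := Real.one_le_exp (by norm_num)
  have hmt1 : 1 ≤ mt := by nlinarith
  have hm0 : 0 < m := by
    by_contra hcon
    have : mt ≤ 0 := by
      rw [hmtdef]
      exact mul_nonpos_of_nonpos_of_nonneg (not_lt.1 hcon) ht0.le
    linarith
  have hmt' : ms ≤ Real.exp (-2) * mt := by
    have h1 : Real.exp (-2) * (Real.exp 2 * ms) ≤ Real.exp (-2) * mt :=
      mul_le_mul_of_nonneg_left hmt (Real.exp_pos _).le
    have h2 : Real.exp (-2) * (Real.exp 2 * ms) = ms := by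
      rw [← mul_assoc, ← Real.exp_add]
      norm_num
    rwa [h2] at h1
  have hy1 : 1 ≤ Real.exp (-2) * mt := le_trans hms1 hmt'
  have hy0 : 0 < Real.exp (-2) * mt := by linarith
  set ε := (Real.exp (-2) * mt) ^ (-(1 / 10) : ℝ) with hε
  set θ := C * (Real.exp (-2) * mt) ^ (-(1 / 4) : ℝ) with hθ
  have hε0 : 0 ≤ ε := Real.rpow_nonneg hy0.le _
  have hθ0 : 0 ≤ θ := mul_nonneg hC (Real.rpow_nonneg hy0.le _)
  have hθ1 : θ ≤ 1 := th_one hC hy1 (le_trans hmsC hmt')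
  have hf : HolDisc (rc ρ t) := p5 _ ρ hD.hol t ht
  have hFac : ∀ z ∈ Metric.ball (0 : ℂ) 1, Facts (rc ρ t z) := fun z hz => hQF g hg _ (hf.2 z hz)
  -- the data at a point near `t`
  have hpt : ∀ p : ℂ, ‖p‖ ≤ Real.tanh 1 → p ∈ Metric.ball (0 : ℂ) 1 ∧
      Tp t p ∈ Metric.ball (0 : ℂ) 1 ∧ 1 ≤ ent (rc ρ t p) ∧
      (2 / ent (rc ρ t p) - 1 ≤ ε ∨ ∀ z : ℂ, ‖z‖ ≤ 1 / 2 →
        1 / ent (rc ρ (Tp t p) z) ≤ 1 / ent (rc ρ t p) * (1 + θ * ‖z‖ + 8 * ‖z‖ ^ 2)) := by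
    intro p hp
    obtain ⟨hpb, hhf⟩ := ht3 p hp
    have hp' : Tp t p ∈ Metric.ball (0 : ℂ) 1 := (p1 t ht).1 p hpb
    have h0 : (0 : ℂ) ∈ Metric.ball (0 : ℂ) 1 := by simp
    set m' := m * ((1 - Tp t p) / (1 + Tp t p)).re with hm'
    have hm'1 : Real.exp (-2) * mt ≤ m' := by
      have h1 := mul_le_mul_of_nonneg_left hhf hm0.le
      rw [hm', hmtdef]
      linarith
    have hm'0 : 0 < m' := by linarith
    obtain ⟨r, A, B, lam, M, G, φ, μ, μ0, hP⟩ := hD.pts (Tp t p) hp' (le_trans hmt' hm'1)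
    have hhol : HolDisc (rc ρ (Tp t p)) := p5 _ ρ hD.hol (Tp t p) hp'
    have hFac' : ∀ z ∈ Metric.ball (0 : ℂ) 1, Facts (rc ρ (Tp t p) z) := fun z hz =>
      hQF g hg _ (hhol.2 z hz)
    have hrc0 : rc ρ (Tp t p) 0 = rc ρ t p := by
      unfold rc
      rw [(p1 (Tp t p) hp').2.1]
    obtain ⟨h1, h2⟩ := hT _ (rc ρ (Tp t p)) α m' r A B lam M G φ μ μ0 hP
      (le_trans hms2 (le_trans hmt' hm'1)) hhol.1 hFac' (hhol.2 0 h0)
    rw [hrc0] at h1
    refine ⟨hpb, hp', h1, ?_⟩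
    have hmono : m' ^ (-(1 / 10) : ℝ) ≤ ε :=
      Real.rpow_le_rpow_of_nonpos hy0 hm'1 (by norm_num)
    by_cases hcase : m' ^ (-(1 / 10) : ℝ) ≤ 2 - ent (rc ρ (Tp t p) 0)
    · right
      have h3 := h2 hcase
      have hθ'0 : 0 ≤ C * m' ^ (-(1 / 4) : ℝ) := mul_nonneg hC (Real.rpow_nonneg hm'0.le _)
      have hθ' : C * m' ^ (-(1 / 4) : ℝ) ≤ θ :=
        mul_le_mul_of_nonneg_left (Real.rpow_le_rpow_of_nonpos hy0 hm'1 (by norm_num)) hC
      intro z hz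
      have h4 := hAVG _ (rc ρ (Tp t p)) (U (rc ρ (Tp t p) 0)) (C * m' ^ (-(1 / 4) : ℝ)) hhol.1
        hFac' (hU _ (hhol.2 0 h0)) hθ'0 h3 z hz
      rw [hrc0] at h4
      refine le_trans h4 ?_
      apply mul_le_mul_of_nonneg_left _ (by positivity)
      have h5 := mul_le_mul_of_nonneg_right hθ' (norm_nonneg z)
      linarith
    · left
      have h3 := not_le.1 hcase
      rw [hrc0] at h3
      have hle2 : ent (rc ρ t p) ≤ 2 := (hFac p hpb).2.2.1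
      have he0 : 0 < ent (rc ρ t p) := by linarith
      have h4 : 2 / ent (rc ρ t p) - 1 ≤ 2 - ent (rc ρ t p) := by
        rw [sub_le_iff_le_add, div_le_iff₀ he0]
        nlinarith
      linarith
  have main := hOSC (fun z => 1 / ent (rc ρ t z)) ε θ hε0 hθ0 hθ1 ?_ ?_ ?_ ?_ ζ hζ
  · have hz0 : rc ρ t 0 = ρ t := by
      unfold rc
      rw [(p1 t ht).2.1]
    simp only [hz0] at main
    refine le_trans main ?_
    have h1 : ε ≤ 5 / 4 * mt ^ (-(1 / 10) : ℝ) := eps_le hmt1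
    have h2 : θ ≤ C * (2 * mt ^ (-(1 / 10) : ℝ)) := mul_le_mul_of_nonneg_left (th_le hmt1) hC
    linarith
  · intro z hz
    obtain ⟨-, he0, he2', -⟩ := hFac z hz
    rw [div_le_div_iff₀ (by norm_num) he0]
    linarith
  · intro z hz
    have h1 := (hpt z hz).2.2.1
    rw [div_le_one (by linarith)]
    exact h1
  · intro p hp
    obtain ⟨-, hG⟩ := hPO _ (rc ρ t) U hf.1 hFac (fun z hz => hU _ (hf.2 z hz))
    obtain ⟨G, hG1, hG2, hG3⟩ := hG p hp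
    exact ⟨G, hG1, fun z hz => (hG2 z hz).2, hG3⟩
  · intro p hp
    obtain ⟨hpb, hp', h1, h2⟩ := hpt p hp
    rcases h2 with h2 | h2
    · left
      have : 2 * (1 / ent (rc ρ t p)) - 1 = 2 / ent (rc ρ t p) - 1 := by ring
      rw [this]
      exact h2
    · right
      intro z hz
      obtain ⟨ω, hω, hω2⟩ := p2 t ht p hpb
      have hzb : z ∈ Metric.ball (0 : ℂ) 1 := by
        rw [mem_ball_zero_iff]
        linarith
      have hnorm : ‖ω * z‖ = ‖z‖ := by rw [norm_mul, hω, one_mul]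
      have h3 := h2 (ω * z) (by rw [hnorm]; exact hz)
      rw [hnorm] at h3
      have h4 : rc ρ t (Tp p z) = rc ρ (Tp t p) (ω * z) := by
        unfold rc
        rw [hω2 z hzb]
      simp only [h4]
      exact h3

end Pool.Agent.Helper60.QT
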