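import Pool.Agent.Helper88.QT.St3
import Pool.Agent.Helper85.QT.St1

/-!
Project QT (MP_d112a4_gt), module AVG: from counting to the entropy.
-/

set_option autoImplicit false

open MeasureTheory Matrix Set Topology Filter
open scoped ENNReal ComplexConjugate

namespace Pool.Agent.Helper60.QT

open Pool.Agent.Helper88.QT
open Pool.Agent.Helper35.PM

namespace AVG

variable {Γ : Type} [Group Γ]

theorem len_nonneg (hHS2 : St_HS2) (ρ : Γ →* SL) (c : ConjClasses Γ) : 0 ≤ len ρ c :=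
  (hHS2.2.2.1 (ρ (Quotient.out c))).1

/-- every ratio of lengths is at most three -/
theorem ratio_le (hHS2 : St_HS2) (hHL : St_HL) (hHK : St_HK) (f : ℂ → Γ →* SL)
    (hf : ∀ γ i j, DifferentiableOn ℂ (fun z : ℂ => (f z γ : Mat) i j) (Metric.ball 0 1))
    (hF : ∀ z ∈ Metric.ball (0 : ℂ) 1, Facts (f z)) (z : ℂ) (hz : ‖z‖ ≤ 1 / 2)
    (c : ConjClasses Γ) : len (f z) c / len (f 0) c ≤ 3 := by
  have h0 : (0 : ℂ) ∈ Metric.ball (0 : ℂ) 1 := by simp
  have hzb : z ∈ Metric.ball (0 : ℂ) 1 := by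
    rw [mem_ball_zero_iff]
    linarith
  by_cases hc : len (f 0) c = 0
  · rw [hc, div_zero]
    norm_num
  · have hc0 : 0 < len (f 0) c := lt_of_le_of_ne (len_nonneg hHS2 _ _) (Ne.symm hc)
    have hinf : ¬ ∃ n : ℕ, 1 ≤ n ∧ (Quotient.out c) ^ n = 1 := fun h =>
      hc (((hF 0 h0).2.2.2.2.2.1 (Quotient.out c)).2 h)
    have hpos : ∀ w ∈ Metric.ball (0 : ℂ) 1, 0 < tl (f w (Quotient.out c)) := by
      intro w hw
      exact lt_of_le_of_ne (hHS2.2.2.1 _).1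
        (fun h => hinf (((hF w hw).2.2.2.2.2.1 (Quotient.out c)).1 h.symm))
    obtain ⟨G, hG, hGre⟩ := hHL (fun w => f w (Quotient.out c)) (hf (Quotient.out c)) hpos
    have hk := (hHK G hG (fun w hw => by rw [hGre w hw]; exact (hpos w hw).le) z hzb).1
    rw [hGre z hzb, hGre 0 h0] at hk
    have h3 : (1 + ‖z‖) / (1 - ‖z‖) ≤ 3 := by
      rw [div_le_iff₀ (by linarith)]
      linarith
    rw [div_le_iff₀ hc0]
    calc len (f z) c ≤ (1 + ‖z‖) / (1 - ‖z‖) * len (f 0) c := hk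
      _ ≤ 3 * len (f 0) c := mul_le_mul_of_nonneg_right h3 hc0.le

/-- ratio of lengths for a class with a good bound of the gradient -/
theorem ratio_good (hHS2 : St_HS2) (hHSO : StHSO) (f : ℂ → Γ →* SL) (z : ℂ) (hz : ‖z‖ ≤ 1 / 2)
    (c : ConjClasses Γ) (θ η T : ℝ) (hθ : 0 ≤ θ) (hη : η < 1) (hT : 0 < T)
    (hlen : (1 - η) * T < len (f 0) c) (hG : GradLE f c (θ * T)) :
    len (f z) c / len (f 0) c ≤ 1 + θ / (1 - η) * ‖z‖ + 8 * ‖z‖ ^ 2 := by
  obtain ⟨Λ, hΛ, hΛre, hΛd⟩ := hG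
  have h0 : (0 : ℂ) ∈ Metric.ball (0 : ℂ) 1 := by simp
  have hzb : z ∈ Metric.ball (0 : ℂ) 1 := by
    rw [mem_ball_zero_iff]
    linarith
  have hnn : ∀ w ∈ Metric.ball (0 : ℂ) 1, 0 ≤ (Λ w).re := by
    intro w hw
    rw [hΛre w hw]
    exact len_nonneg hHS2 _ _
  have h := hHSO Λ hΛ hnn z hz
  rw [hΛre z hzb, hΛre 0 h0] at h
  have hη1 : 0 < 1 - η := by linarith
  have hL : 0 < len (f 0) c := lt_trans (mul_pos hη1 hT) hlen
  rw [div_le_iff₀ hL]
  have h1 : θ * T ≤ θ / (1 - η) * len (f 0) c := by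
    have h2 : θ / (1 - η) * ((1 - η) * T) = θ * T := by
      field_simp
    rw [← h2]
    exact mul_le_mul_of_nonneg_left hlen.le (by positivity)
  have h3 : ‖deriv Λ 0‖ * ‖z‖ ≤ θ / (1 - η) * len (f 0) c * ‖z‖ :=
    mul_le_mul_of_nonneg_right (le_trans hΛd h1) (norm_nonneg z)
  calc len (f z) c ≤ len (f 0) c + ‖deriv Λ 0‖ * ‖z‖ + 8 * len (f 0) c * ‖z‖ ^ 2 := h
    _ ≤ len (f 0) c + θ / (1 - η) * len (f 0) c * ‖z‖ + 8 * len (f 0) c * ‖z‖ ^ 2 := by linarith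
    _ = (1 + θ / (1 - η) * ‖z‖ + 8 * ‖z‖ ^ 2) * len (f 0) c := by ring

/-- upper bound of the average -/
theorem avg_le (ρ σ : Γ →* SL) (hfin : ∀ T : ℝ, (classes ρ T).Finite) (T V K : ℝ) (hV : 0 ≤ V)
    (bad : Set (ConjClasses Γ)) (hbf : bad.Finite) (h3 : ∀ c, len σ c / len ρ c ≤ 3)
    (hgood : ∀ c ∈ classes ρ T, c ∉ bad → len σ c / len ρ c ≤ V) (hbad : (bad.ncard : ℝ) ≤ K)
    (hN : 0 < (num ρ T : ℝ)) : avg ρ σ T ≤ V + 3 * K / num ρ T := by
  classical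
  have hnum : (num ρ T : ℝ) = ((hfin T).toFinset.card : ℝ) := by
    unfold num
    rw [Set.ncard_eq_toFinset_card _ (hfin T)]
  unfold avg
  rw [finsum_mem_eq_finite_toFinset_sum _ (hfin T), div_le_iff₀ hN]
  have h1 : ∑ c ∈ (hfin T).toFinset, len σ c / len ρ c
      ≤ ∑ c ∈ (hfin T).toFinset, (V + if c ∈ bad then (3 : ℝ) else 0) := by
    apply Finset.sum_le_sum
    intro c hc
    rw [Set.Finite.mem_toFinset] at hc
    by_cases hb : c ∈ bad
    · rw [if_pos hb]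
      have := h3 c
      linarith
    · rw [if_neg hb]
      have := hgood c hc hb
      linarith
  have h2 : ∑ c ∈ (hfin T).toFinset, (V + if c ∈ bad then (3 : ℝ) else 0)
      = (num ρ T : ℝ) * V + 3 * (((hfin T).toFinset.filter (fun c => c ∈ bad)).card : ℝ) := by
    rw [Finset.sum_add_distrib, Finset.sum_const, nsmul_eq_mul, ← hnum, ← Finset.sum_filter,
      Finset.sum_const, nsmul_eq_mul]
    ring
  have h4 : (((hfin T).toFinset.filter (fun c => c ∈ bad)).card : ℝ) ≤ (bad.ncard : ℝ) := by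
    have h5 : ((hfin T).toFinset.filter (fun c => c ∈ bad)).card ≤ bad.ncard := by
      rw [← Set.ncard_coe_finset]
      apply Set.ncard_le_ncard _ hbf
      intro c hc
      rw [Finset.mem_coe, Finset.mem_filter] at hc
      exact hc.2
    exact_mod_cast h5
  have h6 : (V + 3 * K / num ρ T) * (num ρ T : ℝ) = (num ρ T : ℝ) * V + 3 * K := by
    field_simp
  rw [h6]
  linarith

/-- the bad classes are negligible along the ultrafilter -/
theorem small (ρ : Γ →* SL) (V' : Ultrafilter ℝ) (hFa : Facts ρ) (hAd : Adapted V' ρ)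
    {η δ C ε : ℝ} (hη0 : 0 < η) (hη1 : η < 1) (hδ : 0 < δ) (hC : 0 ≤ C) (hε : 0 < ε) :
    ∀ᶠ T in (V' : Filter ℝ), 1 ≤ T ∧ 0 < (num ρ T : ℝ) ∧
      3 * ((num ρ ((1 - η) * T) : ℝ) + C * Real.exp ((ent ρ - δ) * T)) / num ρ T ≤ ε := by
  obtain ⟨-, hh, -, hinf, hup, -, -⟩ := hFa
  obtain ⟨hle, hlim⟩ := hAd
  set h := ent ρ with hh'
  set κ := min δ (η * h) / 4 with hκ
  have hηh : 0 < η * h := mul_pos hη0 hh
  have hκ0 : 0 < κ := by
    rw [hκ]
    exact div_pos (lt_min hδ hηh) (by norm_num)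
  have hκ1 : κ ≤ δ / 4 := by
    rw [hκ]
    exact div_le_div_of_nonneg_right (min_le_left _ _) (by norm_num)
  have hκ2 : κ ≤ η * h / 4 := by
    rw [hκ]
    exact div_le_div_of_nonneg_right (min_le_right _ _) (by norm_num)
  have hη' : 0 < 1 - η := by linarith
  have hmul : Tendsto (fun T : ℝ => (1 - η) * T) atTop atTop :=
    tendsto_id.const_mul_atTop hη'
  have ea : ∀ᶠ T in (V' : Filter ℝ), (1 : ℝ) ≤ T := hle (eventually_ge_atTop 1)
  have eb : ∀ᶠ T in (V' : Filter ℝ), h - κ ≤ Real.log (num ρ T) / T :=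
    (hlim.eventually (Ioi_mem_nhds (by linarith : h - κ < h))).mono fun T hT => le_of_lt hT
  have ec : ∀ᶠ T in (V' : Filter ℝ),
      Real.log (num ρ ((1 - η) * T)) / ((1 - η) * T) ≤ h + κ :=
    hle (hmul.eventually (hup κ hκ0))
  have ed : ∀ᶠ T in (V' : Filter ℝ), (1 : ℝ) ≤ num ρ T := hle (hinf (eventually_ge_atTop 1))
  have ee : ∀ᶠ T in (V' : Filter ℝ), (1 : ℝ) ≤ num ρ ((1 - η) * T) :=
    hle (hmul.eventually (hinf (eventually_ge_atTop 1)))
  have ef : ∀ᶠ T in (V' : Filter ℝ),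
      3 * (Real.exp (-(η * h / 2 * T)) + C * Real.exp (-(δ / 2 * T))) ≤ ε := by
    apply hle
    have t1 : Tendsto (fun T : ℝ => Real.exp (-(η * h / 2 * T))) atTop (𝓝 0) :=
      Real.tendsto_exp_neg_atTop_nhds_zero.comp
        (tendsto_id.const_mul_atTop (by positivity : 0 < η * h / 2))
    have t2 : Tendsto (fun T : ℝ => Real.exp (-(δ / 2 * T))) atTop (𝓝 0) :=
      Real.tendsto_exp_neg_atTop_nhds_zero.comp
        (tendsto_id.const_mul_atTop (by positivity : 0 < δ / 2))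
    have t3 : Tendsto (fun T : ℝ =>
        3 * (Real.exp (-(η * h / 2 * T)) + C * Real.exp (-(δ / 2 * T)))) atTop
        (𝓝 (3 * (0 + C * 0))) := (t1.add (t2.const_mul C)).const_mul 3
    have h0 : (3 : ℝ) * (0 + C * 0) = 0 := by ring
    rw [h0] at t3
    exact (t3.eventually (Iio_mem_nhds hε)).mono fun T hT => le_of_lt hT
  filter_upwards [ea, eb, ec, ed, ee, ef] with T h1 h2 h3 h4 h5 h6
  have hT0 : 0 < T := by linarith
  have hN0 : 0 < (num ρ T : ℝ) := by linarith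
  refine ⟨h1, hN0, le_trans ?_ h6⟩
  have hNlow : Real.exp ((h - κ) * T) ≤ num ρ T := by
    rw [← Real.le_log_iff_exp_le hN0]
    rw [le_div_iff₀ hT0] at h2
    exact h2
  have hT' : 0 < (1 - η) * T := mul_pos hη' hT0
  have hNup : (num ρ ((1 - η) * T) : ℝ) ≤ Real.exp ((h + κ) * ((1 - η) * T)) := by
    rw [← Real.log_le_iff_le_exp (by linarith)]
    rw [div_le_iff₀ hT'] at h3
    exact h3
  rw [div_le_iff₀ hN0]
  have k1 : (num ρ ((1 - η) * T) : ℝ) ≤ Real.exp (-(η * h / 2 * T)) * num ρ T := by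
    calc (num ρ ((1 - η) * T) : ℝ) ≤ Real.exp ((h + κ) * ((1 - η) * T)) := hNup
      _ ≤ Real.exp (-(η * h / 2 * T) + (h - κ) * T) := by
        apply Real.exp_le_exp.2
        have e1 : (h + κ) * (1 - η) ≤ -(η * h / 2) + (h - κ) := by nlinarith
        have e2 := mul_le_mul_of_nonneg_right e1 hT0.le
        calc (h + κ) * ((1 - η) * T) = (h + κ) * (1 - η) * T := by ring
          _ ≤ (-(η * h / 2) + (h - κ)) * T := e2
          _ = -(η * h / 2 * T) + (h - κ) * T := by ring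
      _ = Real.exp (-(η * h / 2 * T)) * Real.exp ((h - κ) * T) := Real.exp_add _ _
      _ ≤ Real.exp (-(η * h / 2 * T)) * num ρ T :=
        mul_le_mul_of_nonneg_left hNlow (Real.exp_pos _).le
  have k2 : Real.exp ((h - δ) * T) ≤ Real.exp (-(δ / 2 * T)) * num ρ T := by
    calc Real.exp ((h - δ) * T) ≤ Real.exp (-(δ / 2 * T) + (h - κ) * T) := by
          apply Real.exp_le_exp.2
          have e1 : h - δ ≤ -(δ / 2) + (h - κ) := by linarith
          have e2 := mul_le_mul_of_nonneg_right e1 hT0.le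
          calc (h - δ) * T ≤ (-(δ / 2) + (h - κ)) * T := e2
            _ = -(δ / 2 * T) + (h - κ) * T := by ring
      _ = Real.exp (-(δ / 2 * T)) * Real.exp ((h - κ) * T) := Real.exp_add _ _
      _ ≤ Real.exp (-(δ / 2 * T)) * num ρ T :=
        mul_le_mul_of_nonneg_left hNlow (Real.exp_pos _).le
  have k3 := mul_le_mul_of_nonneg_left k2 hC
  calc 3 * ((num ρ ((1 - η) * T) : ℝ) + C * Real.exp ((h - δ) * T))
      ≤ 3 * (Real.exp (-(η * h / 2 * T)) * num ρ T + C * (Real.exp (-(δ / 2 * T)) * num ρ T)) := by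
        linarith
    _ = 3 * (Real.exp (-(η * h / 2 * T)) + C * Real.exp (-(δ / 2 * T))) * num ρ T := by ring

end AVG

open AVG in
theorem hAVG (hHS2 : Pool.Agent.Helper35.PM.St_HS2) (hHL : Pool.Agent.Helper35.PM.St_HL)
    (hHK : Pool.Agent.Helper35.PM.St_HK) (hJG : Pool.Agent.Helper35.PM.St_JG)
    (hHSO : Pool.Agent.Helper88.QT.StHSO) : Pool.Agent.Helper88.QT.StAVG := by
  intro Γ _ f V' θ hf hF hAd hθ hcnt z hz
  obtain ⟨δ, hδ, C, hC⟩ := hcnt
  have h0 : (0 : ℂ) ∈ Metric.ball (0 : ℂ) 1 := by simp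
  have hzb : z ∈ Metric.ball (0 : ℂ) 1 := by
    rw [mem_ball_zero_iff]
    linarith
  have hF0 := hF 0 h0
  have hFz := hF z hzb
  have hfin := hF0.1
  have hh : 0 < ent (f 0) := hF0.2.1
  have hhz : 0 < ent (f z) := hFz.2.1
  have hv0 : ∀ c, 0 ≤ len (f z) c / len (f 0) c := fun c =>
    div_nonneg (len_nonneg hHS2 _ _) (len_nonneg hHS2 _ _)
  have hv3 : ∀ c, len (f z) c / len (f 0) c ≤ 3 := fun c =>
    ratio_le hHS2 hHL hHK f hf hF z hz c
  have hN1 : ∀ᶠ T in (V' : Filter ℝ), (1 : ℝ) ≤ num (f 0) T :=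
    hAd.1 (hF0.2.2.2.1 (eventually_ge_atTop 1))
  -- the limit exists
  have hav0 : ∀ T, 0 ≤ avg (f 0) (f z) T := by
    intro T
    unfold avg
    exact div_nonneg (finsum_nonneg fun c => finsum_nonneg fun _ => hv0 c) (Nat.cast_nonneg _)
  have hav3 : ∀ᶠ T in (V' : Filter ℝ), avg (f 0) (f z) T ≤ 3 := by
    filter_upwards [hN1] with T hT
    have := avg_le (f 0) (f z) hfin T 3 0 (by norm_num) ∅ Set.finite_empty hv3
      (fun c _ _ => hv3 c) (by simp) (by linarith)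
    simpa using this
  obtain ⟨I, -, hI⟩ : ∃ I ∈ Icc (0 : ℝ) 3,
      ((V'.map (avg (f 0) (f z)) : Ultrafilter ℝ) : Filter ℝ) ≤ 𝓝 I := by
    apply isCompact_Icc.ultrafilter_le_nhds
    rw [Filter.le_principal_iff]
    change avg (f 0) (f z) ⁻¹' Icc 0 3 ∈ (V' : Filter ℝ)
    filter_upwards [hav3] with T hT
    exact ⟨hav0 T, hT⟩
  have hI' : Tendsto (avg (f 0) (f z)) (V' : Filter ℝ) (𝓝 I) := hI
  have hJ := hJG Γ (f 0) (f z) V' I hF0 hFz hAd hI'
  -- the limit is small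
  have hIη : ∀ η : ℝ, 0 < η → η < 1 → I ≤ 1 + θ / (1 - η) * ‖z‖ + 8 * ‖z‖ ^ 2 := by
    intro η hη0 hη1
    have hη' : 0 < 1 - η := by linarith
    have hV0 : 0 ≤ 1 + θ / (1 - η) * ‖z‖ + 8 * ‖z‖ ^ 2 := by positivity
    apply le_of_forall_pos_le_add
    intro ε hε
    apply le_of_tendsto hI'
    filter_upwards [small (f 0) V' hF0 hAd hη0 hη1 hδ (abs_nonneg C) hε] with T hT
    obtain ⟨hT1, hN0, hsm⟩ := hT
    have hT0 : 0 < T := by linarith
    set bad : Set (ConjClasses Γ) := classes (f 0) ((1 - η) * T)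
      ∪ {c : ConjClasses Γ | c ∈ classes (f 0) T ∧ ¬ GradLE f c (θ * T)} with hbad
    have hfin2 : {c : ConjClasses Γ | c ∈ classes (f 0) T ∧ ¬ GradLE f c (θ * T)}.Finite :=
      (hfin T).subset fun c hc => hc.1
    have hcard : (bad.ncard : ℝ) ≤ (num (f 0) ((1 - η) * T) : ℝ)
        + |C| * Real.exp ((ent (f 0) - δ) * T) := by
      have h1 : bad.ncard ≤ (classes (f 0) ((1 - η) * T)).ncard
          + {c : ConjClasses Γ | c ∈ classes (f 0) T ∧ ¬ GradLE f c (θ * T)}.ncard :=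
        Set.ncard_union_le _ _
      have h2 : (bad.ncard : ℝ) ≤ ((classes (f 0) ((1 - η) * T)).ncard : ℝ)
          + ({c : ConjClasses Γ | c ∈ classes (f 0) T ∧ ¬ GradLE f c (θ * T)}.ncard : ℝ) := by
        exact_mod_cast h1
      have h3 := hC T hT1
      have h4 : C * Real.exp ((ent (f 0) - δ) * T) ≤ |C| * Real.exp ((ent (f 0) - δ) * T) :=
        mul_le_mul_of_nonneg_right (le_abs_self C) (Real.exp_pos _).le
      unfold num
      linarith
    have hgood : ∀ c ∈ classes (f 0) T, c ∉ bad →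
        len (f z) c / len (f 0) c ≤ 1 + θ / (1 - η) * ‖z‖ + 8 * ‖z‖ ^ 2 := by
      intro c hc hcb
      rw [hbad, Set.mem_union, not_or] at hcb
      obtain ⟨hb1, hb2⟩ := hcb
      have hl : (1 - η) * T < len (f 0) c := by
        by_contra hcon
        exact hb1 (not_lt.1 hcon)
      have hg : GradLE f c (θ * T) := by
        by_contra hcon
        exact hb2 ⟨hc, hcon⟩
      exact ratio_good hHS2 hHSO f z hz c θ η T hθ hη1 hT0 hl hg
    have := avg_le (f 0) (f z) hfin T _ _ hV0 bad ((hfin _).union hfin2) hv3 hgood hcard hN0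
    linarith
  have hIlim : I ≤ 1 + θ * ‖z‖ + 8 * ‖z‖ ^ 2 := by
    have hlim : Tendsto (fun η : ℝ => 1 + θ / (1 - η) * ‖z‖ + 8 * ‖z‖ ^ 2) (𝓝[>] 0)
        (𝓝 (1 + θ * ‖z‖ + 8 * ‖z‖ ^ 2)) := by
      have hc : ContinuousAt (fun η : ℝ => 1 + θ / (1 - η) * ‖z‖ + 8 * ‖z‖ ^ 2) 0 := by
        have : (1 : ℝ) - 0 ≠ 0 := by norm_num
        fun_prop (disch := simpa using this)
      have := hc.tendsto
      simp only [sub_zero, div_one] at this
      exact this.mono_left nhdsWithin_le_nhds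
    apply ge_of_tendsto hlim
    filter_upwards [Ioo_mem_nhdsGT (show (0 : ℝ) < 1 by norm_num)] with η hη
    exact hIη η hη.1 hη.2
  -- conclusion
  have h1 : 1 / ent (f z) ≤ I / ent (f 0) := by
    rw [div_le_div_iff₀ hhz hh]
    linarith
  calc 1 / ent (f z) ≤ I / ent (f 0) := h1
    _ ≤ (1 + θ * ‖z‖ + 8 * ‖z‖ ^ 2) / ent (f 0) := div_le_div_of_nonneg_right hIlim hh.le
    _ = 1 / ent (f 0) * (1 + θ * ‖z‖ + 8 * ‖z‖ ^ 2) := by ring

end Pool.Agent.Helper60.QT
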